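import Pool.Agent.RST062.Weights

/-!
# The order of the exploration

`PV x y C N ε`: a walk of length `N` from `x` to `y` through all vertices of `C` fails with
probability at most `ε`.  `order_univ`: recursive sparsest cuts give an exploration of all vertices
of length `24 d n log n log₂ n`-ish (`τ = 12 d log n`).
-/

set_option autoImplicit false
set_option linter.unusedSectionVars false
set_option linter.unusedVariables false

open Finset

noncomputable section

namespace RST062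

variable {V : Type*} [Fintype V] [DecidableEq V] {p : SimpleGraph V → ℝ} {d : ℕ}

/-- sparsest cut of a cluster -/
theorem exists_sparsest (hp : Law p d) {C : Finset V} (hC : 2 ≤ C.card) :
    ∃ A ⊆ C, A.Nonempty ∧ 2 * A.card ≤ C.card ∧ Ex p (w p A (C \ A) / A.card) C := by
  classical
  set F : Finset (Finset V) := C.powerset.filter fun A => A.Nonempty ∧ 2 * A.card ≤ C.card with hF
  have hne : F.Nonempty := by
    obtain ⟨x, hx⟩ : C.Nonempty := by
      rw [← Finset.card_pos]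
      omega
    refine ⟨{x}, mem_filter.2 ⟨mem_powerset.2 (singleton_subset_iff.2 hx), singleton_nonempty x, ?_⟩⟩
    simpa using hC
  obtain ⟨A, hA, hmin⟩ := F.exists_min_image (fun A => w p A (C \ A) / A.card) hne
  rw [hF, mem_filter, mem_powerset] at hA
  refine ⟨A, hA.1, hA.2.1, hA.2.2, fun B hB hB0 hB2 => ?_⟩
  have h1 := hmin B (mem_filter.2 ⟨mem_powerset.2 hB, hB0, hB2⟩)
  have hb : (0 : ℝ) < B.card := by exact_mod_cast hB0.card_pos
  rwa [le_div_iff₀ hb] at h1

/-- the potential of the size -/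
def U (k : ℕ) : ℝ := k * Real.logb 2 k

theorem U_split {a c : ℕ} (ha : 0 < a) (h : 2 * a ≤ c) : U a + U (c - a) + a ≤ U c := by
  have hc : 0 < c := by omega
  have hca : 0 < c - a := by omega
  have h1 : (0 : ℝ) < a := by exact_mod_cast ha
  have h2 : (0 : ℝ) < c := by exact_mod_cast hc
  have h3 : ((c - a : ℕ) : ℝ) = c - a := by
    rw [Nat.cast_sub (by omega)]
  have h4 : (0 : ℝ) < (c : ℝ) - a := by
    rw [← h3]
    exact_mod_cast hca
  have h5 : (2 * a : ℝ) ≤ c := by exact_mod_cast h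
  have h6 : Real.logb 2 a + 1 ≤ Real.logb 2 c := by
    have : Real.logb 2 (2 * a) = Real.logb 2 a + 1 := by
      rw [Real.logb_mul (by norm_num) h1.ne', Real.logb_self_eq_one (by norm_num)]
      ring
    rw [← this]
    exact Real.logb_le_logb_of_le (by norm_num) (by positivity) h5
  have h7 : Real.logb 2 ((c : ℝ) - a) ≤ Real.logb 2 c :=
    Real.logb_le_logb_of_le (by norm_num) h4 (by linarith)
  unfold U
  rw [h3]
  nlinarith [mul_le_mul_of_nonneg_left h6 h1.le, mul_le_mul_of_nonneg_left h7 h4.le]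

theorem U_nonneg (k : ℕ) : 0 ≤ U k := by
  unfold U
  rcases Nat.eq_zero_or_pos k with rfl | hk
  · simp
  · have : 0 ≤ Real.logb 2 k := Real.logb_nonneg (by norm_num) (by exact_mod_cast hk)
    positivity

/-- what the random part has to provide -/
structure Prov (p : SimpleGraph V → ℝ) (PV : V → V → Finset V → ℕ → ℝ → Prop) (τ δ : ℝ) :
    Prop where
  comp : ∀ {x y z C C' N N' ε ε'}, PV x y C N ε → PV y z C' N' ε' →
    PV x z (C ∪ C') (N + N') (ε + ε')
  base : ∀ x, PV x x {x} 0 0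
  move : ∀ {θ : ℝ} {C : Finset V}, 0 < θ → Ex p θ C → 2 ≤ C.card → ∀ x ∈ C, ∀ y ∈ C,
    ∃ N : ℕ, (N : ℝ) ≤ τ / θ + 2 ∧ PV x y ∅ N δ

variable {PV : V → V → Finset V → ℕ → ℝ → Prop} {τ δ : ℝ}

/-- splitting step -/
theorem split_step (hp : Law p d) (hP : Prov p PV τ δ) (hτ : 0 ≤ τ) {C A : Finset V} {θ : ℝ}
    (hθ : 0 < θ) (hA : A ⊆ C) (hA0 : A.Nonempty) (hA2 : 2 * A.card ≤ C.card)
    (hw : w p A (C \ A) ≤ θ * A.card)
    (hmv : ∀ x ∈ C, ∀ y ∈ C, ∃ N : ℕ, (N : ℝ) ≤ τ / θ + 2 ∧ PV x y ∅ N δ)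
    (ih : ∀ B ⊆ C, B.Nonempty → B.card < C.card → ∀ s ∈ B, ∃ e ∈ B, ∃ N : ℕ,
      (N : ℝ) ≤ τ * ((w p B Bᶜ - 1) / θ + 2 * U B.card) + 2 * (B.card - 1) ∧
        PV s e B N ((B.card - 1) * δ))
    {s : V} (hs : s ∈ C) : ∃ e ∈ C, ∃ N : ℕ,
      (N : ℝ) ≤ τ * ((w p C Cᶜ - 1) / θ + 2 * U C.card) + 2 * (C.card - 1) ∧
        PV s e C N ((C.card - 1) * δ) := by
  have hAc : 0 < A.card := hA0.card_pos
  have hcard : (C \ A).card = C.card - A.card := card_sdiff_of_subset hA
  have hB0 : (C \ A).Nonempty := by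
    rw [← card_pos, hcard]
    omega
  have hB1 : (C \ A).card < C.card := by omega
  have hA1 : A.card < C.card := by omega
  have hcr : (((C \ A).card : ℕ) : ℝ) = C.card - A.card := by
    rw [hcard, Nat.cast_sub (by omega)]
  have hb := w_split p hA
  have hU := U_split hAc hA2
  rw [← hcard] at hU
  -- the two orders
  have key : ∀ (B B' : Finset V), B ⊆ C → B' ⊆ C → B.Nonempty → B'.Nonempty →
      B.card < C.card → B'.card < C.card → B ∪ B' = C →
      w p B Bᶜ + w p B' B'ᶜ = w p C Cᶜ + 2 * w p A (C \ A) →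
      U B.card + U B'.card + A.card ≤ U C.card →
      ((B.card : ℝ) + B'.card = C.card) → s ∈ B → ∃ e ∈ C, ∃ N : ℕ,
      (N : ℝ) ≤ τ * ((w p C Cᶜ - 1) / θ + 2 * U C.card) + 2 * (C.card - 1) ∧
        PV s e C N ((C.card - 1) * δ) := by
    intro B B' hB hB' hB0 hB'0 hBc hB'c hun hbb hUU hcc hsB
    obtain ⟨e, he, N, hN, h1⟩ := ih B hB hB0 hBc s hsB
    obtain ⟨s', hs'⟩ := hB'0
    obtain ⟨e', he', N', hN', h2⟩ := ih B' hB' ⟨s', hs'⟩ hB'c s' hs'
    obtain ⟨M, hM, h3⟩ := hmv e (hB he) s' (hB' hs')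
    refine ⟨e', hB' he', N + M + N', ?_, ?_⟩
    · push_cast
      have h4 : (w p B Bᶜ - 1) / θ + (w p B' B'ᶜ - 1) / θ + 1 / θ ≤
          (w p C Cᶜ - 1) / θ + 2 * A.card := by
        have h5 : (w p B Bᶜ - 1) / θ + (w p B' B'ᶜ - 1) / θ + 1 / θ =
            (w p C Cᶜ - 1) / θ + 2 * w p A (C \ A) / θ := by
          rw [← add_div, ← add_div, ← add_div]
          congr 1
          linarith
        rw [h5]
        have h6 : 2 * w p A (C \ A) / θ ≤ 2 * A.card := by
          rw [div_le_iff₀ hθ]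
          nlinarith
        linarith
      have h7 : τ / θ = τ * (1 / θ) := by ring
      rw [h7] at hM
      have h8 : τ * ((w p B Bᶜ - 1) / θ + (w p B' B'ᶜ - 1) / θ + 1 / θ) ≤
          τ * ((w p C Cᶜ - 1) / θ + 2 * A.card) := mul_le_mul_of_nonneg_left h4 hτ
      have h9 : τ * (U B.card + U B'.card + A.card) ≤ τ * U C.card :=
        mul_le_mul_of_nonneg_left hUU hτ
      nlinarith
    · have h4 := hP.comp (hP.comp h1 h3) h2
      rw [union_empty, hun] at h4
      convert h4 using 1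
      have : (C.card : ℝ) = B.card + B'.card := hcc.symm
      rw [this]
      ring
  by_cases hsA : s ∈ A
  · exact key A (C \ A) hA sdiff_subset hA0 hB0 hA1 hB1 (union_sdiff_of_subset hA) hb hU
      (by rw [hcr]; ring) hsA
  · exact key (C \ A) A sdiff_subset hA hB0 hA0 hB1 hA1 (sdiff_union_of_subset hA)
      (by rw [add_comm]; exact hb) (by linarith) (by rw [hcr]; ring) (mem_sdiff.2 ⟨hs, hsA⟩)

/-- **order of a proper cluster** -/
theorem order_aux (hp : Law p d) (hP : Prov p PV τ δ) (hτ : 0 ≤ τ) (k : ℕ) :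
    ∀ C : Finset V, C.card = k → C.Nonempty → C ≠ univ → ∀ θ : ℝ, 0 < θ →
    (∀ x ∈ C, ∀ y ∈ C, ∃ N : ℕ, (N : ℝ) ≤ τ / θ + 2 ∧ PV x y ∅ N δ) → ∀ s ∈ C, ∃ e ∈ C,
    ∃ N : ℕ, (N : ℝ) ≤ τ * ((w p C Cᶜ - 1) / θ + 2 * U C.card) + 2 * (C.card - 1) ∧
      PV s e C N ((C.card - 1) * δ) := by
  induction k using Nat.strong_induction_on with
  | _ k ih =>
  intro C hCk hC0 hC1 θ hθ hmv s hs
  have hb := one_le_b hp hC0 hC1
  rcases Nat.lt_or_ge C.card 2 with h2 | h2
  · have hc1 : C.card = 1 := by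
      have := hC0.card_pos
      omega
    obtain ⟨x, rfl⟩ := card_eq_one.1 hc1
    rw [mem_singleton] at hs
    subst hs
    refine ⟨s, mem_singleton_self s, 0, ?_, ?_⟩
    · have h1 : 0 ≤ (w p {s} {s}ᶜ - 1) / θ := div_nonneg (by linarith) hθ.le
      have h2 := U_nonneg ({s} : Finset V).card
      rw [card_singleton] at h2 ⊢
      push_cast
      have : 0 ≤ τ * ((w p {s} {s}ᶜ - 1) / θ + 2 * U 1) := mul_nonneg hτ (by linarith)
      linarith
    · have := hP.base s
      simpa using this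
  · obtain ⟨A, hA, hA0, hA2, hEx⟩ := exists_sparsest hp h2
    set φ : ℝ := w p A (C \ A) / A.card with hφ
    have ha : (0 : ℝ) < A.card := by exact_mod_cast hA0.card_pos
    have hw : w p A (C \ A) = φ * A.card := by
      rw [hφ]
      field_simp
    set θ' : ℝ := max θ φ with hθ'
    have h1 : θ ≤ θ' := le_max_left _ _
    have h1' : φ ≤ θ' := le_max_right _ _
    have hθ'0 : 0 < θ' := hθ.trans_le h1
    have hmv' : ∀ x ∈ C, ∀ y ∈ C, ∃ N : ℕ, (N : ℝ) ≤ τ / θ' + 2 ∧ PV x y ∅ N δ := by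
      rcases le_total φ θ with h | h
      · rw [hθ', max_eq_left h]
        exact hmv
      · rw [hθ', max_eq_right h]
        exact hP.move (hθ.trans_le h) hEx h2
    obtain ⟨e, he, N, hN, h3⟩ := split_step hp hP hτ hθ'0 hA hA0 hA2
      (by rw [hw]; exact mul_le_mul_of_nonneg_right h1' ha.le) hmv'
      (fun B hB hB0 hBc s' hs' => ih B.card (by omega) B rfl hB0
        (fun hcon => by
          rw [hcon] at hBc
          exact absurd (card_le_univ C) (not_le.2 hBc)) θ' hθ'0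
        (fun x hx y hy => hmv' x (hB hx) y (hB hy)) s' hs') hs
    refine ⟨e, he, N, hN.trans ?_, h3⟩
    have h4 : (w p C Cᶜ - 1) / θ' ≤ (w p C Cᶜ - 1) / θ := by
      gcongr
    have h5 : τ * ((w p C Cᶜ - 1) / θ' + 2 * U C.card) ≤
        τ * ((w p C Cᶜ - 1) / θ + 2 * U C.card) :=
      mul_le_mul_of_nonneg_left (by linarith) hτ
    linarith

/-- **exploration of all vertices** -/
theorem order_univ (hp : Law p d) (hP : Prov p PV τ δ) (hτ : 0 ≤ τ)
    (hn : 2 ≤ Fintype.card V) (s : V) : ∃ e : V, ∃ N : ℕ,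
    (N : ℝ) ≤ τ * (2 * U (Fintype.card V)) + 2 * (Fintype.card V - 1) ∧
      PV s e univ N ((Fintype.card V - 1) * δ) := by
  have hcu : (univ : Finset V).card = Fintype.card V := card_univ
  obtain ⟨A, hA, hA0, hA2, hEx⟩ := exists_sparsest hp (C := univ) (by rw [hcu]; exact hn)
  set φ : ℝ := w p A (univ \ A) / A.card with hφ
  have ha : (0 : ℝ) < A.card := by exact_mod_cast hA0.card_pos
  have hA1 : A ≠ univ := by
    rintro rfl
    rw [hcu] at hA2
    omega
  have hφ0 : 0 < φ := by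
    rw [hφ]
    refine div_pos ?_ ha
    have := one_le_b hp hA0 hA1
    rw [compl_eq_univ_sdiff] at this
    linarith
  have hw : w p A (univ \ A) = φ * A.card := by
    rw [hφ]
    field_simp
  have hmv := hP.move hφ0 hEx (by rw [hcu]; exact hn)
  obtain ⟨e, -, N, hN, h3⟩ := split_step hp hP hτ hφ0 hA hA0 hA2 hw.le hmv
    (fun B hB hB0 hBc s' hs' => order_aux hp hP hτ B.card B rfl hB0
      (fun hcon => by
        rw [hcon] at hBc
        exact lt_irrefl _ hBc) φ hφ0
      (fun x hx y hy => hmv x (hB hx) y (hB hy)) s' hs') (mem_univ s)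
  rw [hcu] at hN h3
  refine ⟨e, N, hN.trans ?_, h3⟩
  have h4 : w p (univ : Finset V) univᶜ = 0 := by
    unfold w
    refine Finset.sum_eq_zero fun H _ => ?_
    have : eb H (univ : Finset V) univᶜ = 0 := by
      unfold eb
      simp
    rw [this]
    simp
  rw [h4]
  have h5 : (0 - 1) / φ ≤ 0 := div_nonpos_of_nonpos_of_nonneg (by norm_num) hφ0.le
  nlinarith [mul_nonneg hτ (neg_nonneg.2 h5)]

end RST062

end
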