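import Pool.Agent.RST062.Order

/-!
# Random temporal graphs: one move in a cluster
-/

set_option autoImplicit false
set_option linter.unusedSectionVars false
set_option linter.unusedVariables false

open Finset MeasureTheory ProbabilityTheory

noncomputable section

namespace RST062

section Walks

variable {V : Type*}

/-- `v` moves along edges of the snapshots `g i`, `a ≤ i < b`, or waits -/
def Wk (g : ℕ → SimpleGraph V) (a b : ℕ) (v : ℕ → V) : Prop :=
  ∀ i, a ≤ i → i < b → v (i + 1) = v i ∨ (g i).Adj (v i) (v (i + 1))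

/-- a walk in the window `[a, b)` from `x` to `y` through all vertices of `C` -/
def Vis (g : ℕ → SimpleGraph V) (a b : ℕ) (x y : V) (C : Finset V) : Prop :=
  ∃ v : ℕ → V, v a = x ∧ v b = y ∧ Wk g a b v ∧ ∀ c ∈ C, ∃ i, a ≤ i ∧ i ≤ b ∧ v i = c

theorem Vis.refl (g : ℕ → SimpleGraph V) (a : ℕ) (x : V) : Vis g a a x x {x} := by
  refine ⟨fun _ => x, rfl, rfl, fun i h1 h2 => absurd h2 (not_lt.2 h1), fun c hc => ?_⟩
  exact ⟨a, le_rfl, le_rfl, (mem_singleton.1 hc).symm⟩

theorem Vis.mono {g : ℕ → SimpleGraph V} {a b : ℕ} {x y : V} {C C' : Finset V}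
    (h : Vis g a b x y C) (hC : C' ⊆ C) : Vis g a b x y C' := by
  obtain ⟨v, h1, h2, h3, h4⟩ := h
  exact ⟨v, h1, h2, h3, fun c hc => h4 c (hC hc)⟩

theorem Vis.comp [DecidableEq V] {g : ℕ → SimpleGraph V} {a b c : ℕ} {x y z : V}
    {C C' : Finset V} (hab : a ≤ b) (hbc : b ≤ c) (h : Vis g a b x y C)
    (h' : Vis g b c y z C') : Vis g a c x z (C ∪ C') := by
  obtain ⟨v, h1, h2, h3, h4⟩ := h
  obtain ⟨v', h1', h2', h3', h4'⟩ := h'
  refine ⟨fun i => if i ≤ b then v i else v' i, ?_, ?_, ?_, ?_⟩
  · simp only [if_pos hab, h1]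
  · by_cases h : c ≤ b
    · have : c = b := le_antisymm h hbc
      subst this
      simp only [le_refl, if_true]
      rw [h2, ← h2', h1']
    · simp only [if_neg h, h2']
  · intro i hi1 hi2
    rcases lt_trichotomy i b with h | h | h
    · simp only [if_pos h.le, if_pos (Nat.succ_le_of_lt h)]
      exact h3 i hi1 h
    · subst h
      have h5 : ¬ i + 1 ≤ i := by omega
      simp only [le_refl, if_true, if_neg h5]
      rw [h2, ← h1']
      exact h3' i le_rfl hi2
    · simp only [if_neg (not_le.2 h), if_neg (not_le.2 (h.trans (Nat.lt_succ_self i)))]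
      exact h3' i h.le hi2
  · intro w hw
    rcases Finset.mem_union.1 hw with hw | hw
    · obtain ⟨i, hi1, hi2, hi3⟩ := h4 w hw
      exact ⟨i, hi1, hi2.trans hbc, by simp only [if_pos hi2, hi3]⟩
    · obtain ⟨i, hi1, hi2, hi3⟩ := h4' w hw
      refine ⟨i, hab.trans hi1, hi2, ?_⟩
      by_cases h : i ≤ b
      · have : i = b := le_antisymm h hi1
        subst this
        simp only [le_refl, if_true]
        rw [h2, ← h1', hi3]
      · simp only [if_neg h, hi3]

theorem Vis.step {g : ℕ → SimpleGraph V} {a : ℕ} {x y : V}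
    (h : x = y ∨ (g a).Adj x y) : Vis g a (a + 1) x y ∅ := by
  refine ⟨fun i => if i ≤ a then x else y, by simp, by simp, ?_, by simp⟩
  intro i h1 h2
  have : i = a := by omega
  subst this
  simp only [le_refl, if_true, Nat.not_succ_le_self, if_false]
  rcases h with h | h
  · exact Or.inl h.symm
  · exact Or.inr h

end Walks

variable {V : Type*} [Fintype V] [DecidableEq V]

/-- evolving set along the snapshots with indices in the list -/
def run (C : Finset V) (g : ℕ → SimpleGraph V) (l : List ℕ) (A : Finset V) : Finset V :=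
  l.foldl (fun S i => stp C (g i) S) A

theorem run_congr {C : Finset V} {g g' : ℕ → SimpleGraph V} {l : List ℕ}
    (h : ∀ i ∈ l, g i = g' i) (A : Finset V) : run C g l A = run C g' l A := by
  induction l generalizing A with
  | nil => rfl
  | cons i l ih =>
    simp only [run, List.foldl_cons]
    rw [h i (by simp)]
    exact ih (fun j hj => h j (by simp [hj])) _

theorem run_append {C : Finset V} {g : ℕ → SimpleGraph V} (l l' : List ℕ) (A : Finset V) :
    run C g (l ++ l') A = run C g l' (run C g l A) := by
  simp [run]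

theorem run_subset {C : Finset V} {g : ℕ → SimpleGraph V} (l : List ℕ) {A : Finset V}
    (h : A ⊆ C) : run C g l A ⊆ C := by
  induction l generalizing A with
  | nil => exact h
  | cons i l ih => exact ih (stp_subset _ h)

/-- forward reachability -/
theorem vis_fwd {C : Finset V} {g : ℕ → SimpleGraph V} {a : ℕ} {x : V} (T : ℕ) {z : V}
    (h : z ∈ run C g (List.range' a T) {x}) : Vis g a (a + T) x z ∅ := by
  induction T generalizing z with
  | zero =>
    simp only [List.range'_zero, run, List.foldl_nil, mem_singleton] at h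
    subst h
    exact (Vis.refl g a z).mono (empty_subset _)
  | succ T ih =>
    rw [List.range'_concat, run_append] at h
    simp only [run, one_mul, List.foldl_cons, List.foldl_nil] at h
    rw [mem_stp] at h
    obtain ⟨u, hu, huz⟩ : ∃ u ∈ run C g (List.range' a T) {x}, u = z ∨ (g (a + T)).Adj u z := by
      rcases h with h | ⟨-, u, hu, h⟩
      · exact ⟨z, h, Or.inl rfl⟩
      · exact ⟨u, hu, Or.inr h⟩
    have h1 := (ih hu).comp (Nat.le_add_right a T) (Nat.le_succ _) (Vis.step huz)
    rw [union_empty] at h1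
    exact h1

/-- backward reachability -/
theorem vis_bwd {C : Finset V} {g : ℕ → SimpleGraph V} {y : V} (T : ℕ) {a : ℕ} {z : V}
    (h : z ∈ run C g (List.range' a T).reverse {y}) : Vis g a (a + T) z y ∅ := by
  induction T generalizing z a with
  | zero =>
    simp only [List.range'_zero, List.reverse_nil, run, List.foldl_nil, mem_singleton] at h
    subst h
    exact (Vis.refl g a z).mono (empty_subset _)
  | succ T ih =>
    rw [List.range'_succ, List.reverse_cons, run_append] at h
    simp only [run, List.foldl_cons, List.foldl_nil] at h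
    rw [mem_stp] at h
    obtain ⟨u, hu, huz⟩ : ∃ u ∈ run C g (List.range' (a + 1) T).reverse {y},
        z = u ∨ (g a).Adj z u := by
      rcases h with h | ⟨-, u, hu, h⟩
      · exact ⟨z, h, Or.inl rfl⟩
      · exact ⟨u, hu, Or.inr h.symm⟩
    have h1 := (Vis.step huz).comp (Nat.le_succ a) (Nat.le_add_right (a + 1) T) (ih hu)
    rw [union_empty] at h1
    have h2 : a + 1 + T = a + (T + 1) := by ring
    rwa [h2] at h1

theorem msc : MeasurableSingletonClass (SimpleGraph V) := by
  refine ⟨fun H => ?_⟩
  have h1 : ({H} : Set (SimpleGraph V)) = SimpleGraph.edgeSet ⁻¹' {H.edgeSet} := by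
    ext K
    simp
  rw [h1]
  exact SimpleGraph.measurable_edgeSet (measurableSet_singleton _)

section Random

variable {Ω : Type*} [MeasurableSpace Ω] {P : Measure Ω} [IsProbabilityMeasure P]
  {G : ℕ → Ω → SimpleGraph V} {p : SimpleGraph V → ℝ} {d : ℕ}

/-- **Markov property of the evolving set** -/
theorem prob_run (hm : ∀ i, Measurable (G i)) (hi : iIndepFun G P)
    (hp : ∀ i H, P.real {ω | G i ω = H} = p H) (C : Finset V) (l : List ℕ) (hl : l.Nodup)
    (A : Finset V) :
    P.real {ω | 2 * (run C (fun i => G i ω) l A).card ≤ C.card} = q C p l.length A := by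
  classical
  have := msc (V := V)
  induction l generalizing A with
  | nil =>
    simp only [run, List.foldl_nil, List.length_nil, q]
    split_ifs with h
    · simp [h]
    · simp [h]
  | cons i l ih =>
    rw [List.nodup_cons] at hl
    simp only [List.length_cons, q]
    have hE : {ω | 2 * (run C (fun i => G i ω) (i :: l) A).card ≤ C.card} =
        ⋃ H : SimpleGraph V, ({ω | G i ω = H} ∩
          {ω | 2 * (run C (fun i => G i ω) l (stp C H A)).card ≤ C.card}) := by
      ext ω
      simp only [Set.mem_ofPred_eq, Set.mem_iUnion, Set.mem_inter_iff, run, List.foldl_cons]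
      constructor
      · intro h
        exact ⟨G i ω, rfl, h⟩
      · rintro ⟨H, h1, h2⟩
        rw [h1]
        exact h2
    -- measurability
    let ext' : ((j : l.toFinset) → SimpleGraph V) → ℕ → SimpleGraph V :=
      fun f j => if h : j ∈ l.toFinset then f ⟨j, h⟩ else ⊥
    let S : SimpleGraph V → Set ((j : l.toFinset) → SimpleGraph V) := fun H =>
      {f | 2 * (run C (ext' f) l (stp C H A)).card ≤ C.card}
    have hEH : ∀ H, {ω | 2 * (run C (fun i => G i ω) l (stp C H A)).card ≤ C.card} =
        (fun ω (j : l.toFinset) => G j ω) ⁻¹' (S H) := by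
      intro H
      ext ω
      simp only [Set.mem_ofPred_eq, Set.mem_preimage, S]
      rw [run_congr (g' := ext' fun j : l.toFinset => G j ω)]
      intro j hj
      have hj' : j ∈ l.toFinset := List.mem_toFinset.2 hj
      simp only [ext', dif_pos hj']
    have hGi : ∀ H, {ω | G i ω = H} = (fun ω (j : ({i} : Finset ℕ)) => G j ω) ⁻¹'
        {f | f ⟨i, mem_singleton_self i⟩ = H} := by
      intro H
      ext ω
      simp
    have hmS : ∀ H, MeasurableSet (S H) := fun H => (Set.toFinite _).measurableSet
    have hmi : ∀ H, MeasurableSet {f : (j : ({i} : Finset ℕ)) → SimpleGraph V |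
        f ⟨i, mem_singleton_self i⟩ = H} := fun H => (Set.toFinite _).measurableSet
    have hmt : Measurable fun ω (j : l.toFinset) => G j ω :=
      measurable_pi_lambda _ fun j => hm j
    have hmt' : Measurable fun ω (j : ({i} : Finset ℕ)) => G j ω :=
      measurable_pi_lambda _ fun j => hm j
    have hdis : Disjoint ({i} : Finset ℕ) l.toFinset := by
      rw [Finset.disjoint_singleton_left]
      simpa using hl.1
    have hind := hi.indepFun_finset {i} l.toFinset hdis hm
    have hprod : ∀ H, P.real ({ω | G i ω = H} ∩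
        {ω | 2 * (run C (fun i => G i ω) l (stp C H A)).card ≤ C.card}) =
        p H * q C p l.length (stp C H A) := by
      intro H
      rw [← ih hl.2, ← hp i H, hEH, hGi]
      unfold Measure.real
      rw [hind.measure_inter_preimage_eq_mul _ _ (hmi H) (hmS H), ENNReal.toReal_mul]
    rw [hE]
    unfold Measure.real
    rw [measure_iUnion, tsum_fintype, ENNReal.toReal_sum]
    · exact Finset.sum_congr rfl fun H _ => hprod H
    · intro H _
      exact measure_ne_top _ _
    · intro H H' hH
      rw [Function.onFun, Set.disjoint_left]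
      rintro ω ⟨h1, -⟩ ⟨h2, -⟩
      exact hH (h1.symm.trans h2)
    · intro H
      rw [hEH, hGi]
      exact (hmt' (hmi H)).inter (hmt (hmS H))

/-- failure of a walk -/
def PV (P : Measure Ω) (G : ℕ → Ω → SimpleGraph V) (x y : V) (C : Finset V) (N : ℕ) (ε : ℝ) :
    Prop := ∀ a, P.real {ω | ¬ Vis (fun i => G i ω) a (a + N) x y C} ≤ ε

theorem PV.comp {x y z : V} {C C' : Finset V} {N N' : ℕ} {ε ε' : ℝ} (h : PV P G x y C N ε)
    (h' : PV P G y z C' N' ε') : PV P G x z (C ∪ C') (N + N') (ε + ε') := by
  intro a
  refine (measureReal_mono (s₂ := {ω | ¬ Vis (fun i => G i ω) a (a + N) x y C} ∪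
    {ω | ¬ Vis (fun i => G i ω) (a + N) (a + N + N') y z C'}) ?_).trans
    ((measureReal_union_le _ _).trans (add_le_add (h a) (h' (a + N))))
  intro ω hω
  by_contra hcon
  simp only [Set.mem_union, Set.mem_ofPred_eq, not_or, not_not] at hcon
  have h1 := hcon.1.comp (Nat.le_add_right _ _) (Nat.le_add_right _ _) hcon.2
  rw [add_assoc] at h1
  exact hω h1

theorem card_pos_d {p : SimpleGraph V → ℝ} (hp : Law p d) (hn : 2 ≤ Fintype.card V) : 0 < d := by
  have : Nontrivial V := Fintype.one_lt_card_iff_nontrivial.1 (by omega)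
  obtain ⟨x, y, hxy⟩ := exists_pair_ne V
  have h1 := one_le_b hp (C := {x}) (singleton_nonempty x) (by
    intro h
    exact hxy (mem_singleton.1 (h ▸ mem_univ y)).symm)
  have h2 := w_le hp {x} {x}ᶜ
  rw [card_singleton] at h2
  by_contra h
  have : d = 0 := by omega
  subst this
  norm_num at h2
  linarith

/-- **one move** -/
theorem move (hm : ∀ i, Measurable (G i)) (hi : iIndepFun G P)
    (hG : ∀ i H, P.real {ω | G i ω = H} = p H) (hp : Law p d) {θ : ℝ} {C : Finset V}
    (hθ : 0 < θ) (hC : Ex p θ C) (hC2 : 2 ≤ C.card) {x y : V} (hx : x ∈ C) (hy : y ∈ C)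
    {L : ℝ} (hL : 0 ≤ L) :
    ∃ N : ℕ, (N : ℝ) ≤ 4 * d * L / θ + 2 ∧
      PV P G x y ∅ N (Fintype.card V * Real.exp (-L)) := by
  have hCn : C.card ≤ Fintype.card V := card_le_univ C
  have hd : 0 < d := card_pos_d hp (hC2.trans hCn)
  have hd' : (0 : ℝ) < d := by exact_mod_cast hd
  have hθd : θ ≤ d := by
    have h1 := hC {x} (singleton_subset_iff.2 hx) (singleton_nonempty x) (by simpa using hC2)
    have h2 := w_le hp {x} (C \ {x})
    rw [card_singleton] at h1 h2
    push_cast at h1 h2
    linarith
  have hθ2 : θ ≤ 2 * d := by linarith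
  set T : ℕ := ⌈2 * d * L / θ⌉₊ with hT
  have hT1 : 2 * d * L / θ ≤ T := Nat.le_ceil _
  have hT2 : (T : ℝ) ≤ 2 * d * L / θ + 1 := (Nat.ceil_lt_add_one (by positivity)).le
  refine ⟨T + T, ?_, fun a => ?_⟩
  · push_cast
    have : 4 * d * L / θ = 2 * d * L / θ + 2 * d * L / θ := by ring
    rw [this]
    linarith
  · have hF := prob_run hm hi hG C (List.range' a T) (List.nodup_range') {x}
    have hB := prob_run hm hi hG C (List.range' (a + T) T).reverse
      (List.nodup_reverse.2 List.nodup_range') {y}
    rw [List.length_range'] at hF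
    rw [List.length_reverse, List.length_range'] at hB
    have hqx := q_le hp hd hC hθ2 T (singleton_subset_iff.2 hx) (singleton_nonempty x)
    have hqy := q_le hp hd hC hθ2 T (singleton_subset_iff.2 hy) (singleton_nonempty y)
    rw [card_singleton, Nat.cast_one, div_one] at hqx hqy
    have hexp : (1 - θ / (2 * d)) ^ T ≤ Real.exp (-L) := by
      have h1 : 1 - θ / (2 * d) ≤ Real.exp (-(θ / (2 * d))) := by
        have := Real.add_one_le_exp (-(θ / (2 * d)))
        linarith
      have h0 : 0 ≤ 1 - θ / (2 * d) := by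
        rw [sub_nonneg, div_le_one (by positivity)]
        exact hθ2
      calc (1 - θ / (2 * d)) ^ T ≤ (Real.exp (-(θ / (2 * d)))) ^ T := pow_le_pow_left₀ h0 h1 T
        _ = Real.exp (T * (-(θ / (2 * d)))) := (Real.exp_nat_mul _ _).symm
        _ ≤ Real.exp (-L) := by
            rw [Real.exp_le_exp]
            have h2 : 2 * d * L / θ * (θ / (2 * d)) ≤ T * (θ / (2 * d)) :=
              mul_le_mul_of_nonneg_right hT1 (by positivity)
            have h3 : 2 * d * L / θ * (θ / (2 * d)) = L := by
              field_simp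
            rw [h3] at h2
            linarith
    refine (measureReal_mono (s₂ := {ω | 2 * (run C (fun i => G i ω) (List.range' a T) {x}).card ≤
      C.card} ∪ {ω | 2 * (run C (fun i => G i ω) (List.range' (a + T) T).reverse {y}).card ≤
      C.card}) ?_).trans ((measureReal_union_le _ _).trans ?_)
    · intro ω hω
      by_contra hcon
      simp only [Set.mem_union, Set.mem_ofPred_eq, not_or, not_le] at hcon
      obtain ⟨h1, h2⟩ := hcon
      set F := run C (fun i => G i ω) (List.range' a T) {x} with hFd
      set B := run C (fun i => G i ω) (List.range' (a + T) T).reverse {y} with hBd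
      have hFC : F ⊆ C := run_subset _ (singleton_subset_iff.2 hx)
      have hBC : B ⊆ C := run_subset _ (singleton_subset_iff.2 hy)
      obtain ⟨z, hz⟩ : (F ∩ B).Nonempty := by
        rw [← Finset.card_pos]
        have h3 := card_union_add_card_inter F B
        have h4 : (F ∪ B).card ≤ C.card := card_le_card (union_subset hFC hBC)
        omega
      rw [mem_inter] at hz
      have h5 := (vis_fwd T hz.1).comp (Nat.le_add_right _ _) (Nat.le_add_right _ _)
        (vis_bwd T hz.2)
      rw [union_empty, add_assoc] at h5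
      exact hω h5
    · rw [hF, hB]
      have hc : (0 : ℝ) ≤ C.card := Nat.cast_nonneg _
      have hcn : (C.card : ℝ) ≤ Fintype.card V := by exact_mod_cast hCn
      have he : 0 ≤ Real.exp (-L) := (Real.exp_pos _).le
      calc q C p T {x} + q C p T {y} ≤ C.card / 2 * (1 - θ / (2 * d)) ^ T +
            C.card / 2 * (1 - θ / (2 * d)) ^ T := add_le_add hqx hqy
        _ = C.card * (1 - θ / (2 * d)) ^ T := by ring
        _ ≤ C.card * Real.exp (-L) := mul_le_mul_of_nonneg_left hexp hc
        _ ≤ _ := mul_le_mul_of_nonneg_right hcn he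

/-- **the exploration** -/
theorem explore (hm : ∀ i, Measurable (G i)) (hi : iIndepFun G P)
    (hG : ∀ i H, P.real {ω | G i ω = H} = p H) (hp : Law p d) (hn : 2 ≤ Fintype.card V)
    {L : ℝ} (hL : 0 ≤ L) (s : V) :
    ∃ e : V, ∃ N : ℕ, (N : ℝ) ≤ 4 * d * L * (2 * U (Fintype.card V)) +
      2 * (Fintype.card V - 1) ∧ P.real {ω | ¬ Vis (fun i => G i ω) 0 N s e univ} ≤
        (Fintype.card V - 1) * (Fintype.card V * Real.exp (-L)) := by
  have hprov : Prov p (PV P G) (4 * d * L) (Fintype.card V * Real.exp (-L)) := by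
    refine ⟨fun h h' => h.comp h', fun x a => ?_, fun hθ hC hC2 x hx y hy => ?_⟩
    · have : {ω | ¬ Vis (fun i => G i ω) a (a + 0) x x {x}} = ∅ := by
        ext ω
        simp only [add_zero, Set.mem_ofPred_eq, Set.mem_empty_iff_false, iff_false, not_not]
        exact Vis.refl _ a x
      rw [this]
      simp
    · exact move hm hi hG hp hθ hC hC2 hx hy hL
  obtain ⟨e, N, hN, h⟩ := order_univ hp hprov (by positivity) hn s
  refine ⟨e, N, hN, ?_⟩
  have := h 0
  rwa [zero_add] at this

end Random

end RST062

end
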