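import Mathlib

/-!
# One step of the evolving set of a temporal graph

`stp C H A` adds to `A` the vertices of `C` which have a neighbour in `A`.  `eb H A B` is the number
of pairs in `A × B` which are adjacent in `H`.
-/

set_option autoImplicit false

open Finset

noncomputable section

namespace RST062

set_option linter.unusedSectionVars false
set_option linter.unusedVariables false

variable {V : Type*} [Fintype V] [DecidableEq V]

open Classical in
/-- number of adjacent pairs in `A × B` -/
def eb (H : SimpleGraph V) (A B : Finset V) : ℕ := ((A ×ˢ B).filter fun p => H.Adj p.1 p.2).card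

open Classical in
/-- `A` and its neighbours in `C` -/
def stp (C : Finset V) (H : SimpleGraph V) (A : Finset V) : Finset V :=
  A ∪ C.filter fun v => ∃ u ∈ A, H.Adj u v

theorem mem_stp {C : Finset V} {H : SimpleGraph V} {A : Finset V} {v : V} :
    v ∈ stp C H A ↔ v ∈ A ∨ v ∈ C ∧ ∃ u ∈ A, H.Adj u v := by
  classical
  simp [stp]

theorem subset_stp (C : Finset V) (H : SimpleGraph V) (A : Finset V) : A ⊆ stp C H A := by
  classical
  exact subset_union_left

theorem stp_subset {C : Finset V} (H : SimpleGraph V) {A : Finset V} (h : A ⊆ C) :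
    stp C H A ⊆ C := by
  classical
  exact union_subset h (filter_subset _ _)

theorem eb_symm (H : SimpleGraph V) (A B : Finset V) : eb H A B = eb H B A := by
  classical
  unfold eb
  refine Finset.card_bij (fun p _ => (p.2, p.1)) ?_ ?_ ?_
  · rintro ⟨a, b⟩ h
    simp only [mem_filter, mem_product] at h ⊢
    exact ⟨⟨h.1.2, h.1.1⟩, h.2.symm⟩
  · rintro ⟨a, b⟩ _ ⟨a', b'⟩ _ h
    simp only [Prod.mk.injEq] at h ⊢
    exact ⟨h.2, h.1⟩
  · rintro ⟨a, b⟩ h
    simp only [mem_filter, mem_product] at h
    exact ⟨(b, a), by simp only [mem_filter, mem_product]; exact ⟨⟨h.1.2, h.1.1⟩, h.2.symm⟩, rfl⟩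

/-- `eb` as a sum over the first set -/
theorem eb_eq_sum (H : SimpleGraph V) (A B : Finset V) :
    eb H A B = ∑ u ∈ A, eb H {u} B := by
  classical
  unfold eb
  simp only [Finset.card_filter, Finset.sum_product, Finset.sum_singleton]

theorem eb_union_left (H : SimpleGraph V) {A A' : Finset V} (B : Finset V) (h : Disjoint A A') :
    eb H (A ∪ A') B = eb H A B + eb H A' B := by
  rw [eb_eq_sum, eb_eq_sum H A, eb_eq_sum H A', Finset.sum_union h]

theorem eb_union_right (H : SimpleGraph V) (A : Finset V) {B B' : Finset V} (h : Disjoint B B') :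
    eb H A (B ∪ B') = eb H A B + eb H A B' := by
  rw [eb_symm, eb_union_left H A h, eb_symm H B, eb_symm H B']

theorem eb_singleton_le {H : SimpleGraph V} {d : ℕ} (hd : ∀ v, (H.neighborSet v).ncard ≤ d) (v : V)
    (B : Finset V) : eb H {v} B ≤ d := by
  classical
  refine le_trans ?_ (hd v)
  unfold eb
  rw [← Set.ncard_coe_finset]
  refine Set.ncard_le_ncard_of_injOn (fun p : V × V => p.2) ?_ ?_ (Set.toFinite _)
  · rintro ⟨a, b⟩ h
    simp only [coe_filter, mem_product, mem_singleton, Set.mem_ofPred_eq] at h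
    obtain ⟨⟨rfl, -⟩, h⟩ := h
    exact h
  · rintro ⟨a, b⟩ h ⟨a', b'⟩ h' hh
    simp only [coe_filter, mem_product, mem_singleton, Set.mem_ofPred_eq] at h h'
    simp only at hh
    rw [Prod.mk.injEq]
    exact ⟨h.1.1.trans h'.1.1.symm, hh⟩

theorem eb_le {H : SimpleGraph V} {d : ℕ} (hd : ∀ v, (H.neighborSet v).ncard ≤ d)
    (A B : Finset V) : eb H A B ≤ d * A.card := by
  rw [eb_eq_sum]
  calc ∑ u ∈ A, eb H {u} B ≤ ∑ _u ∈ A, d := Finset.sum_le_sum fun u _ => eb_singleton_le hd u B
    _ = d * A.card := by rw [Finset.sum_const, smul_eq_mul, mul_comm]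

/-- the new vertices absorb all the edges to `C \ A` -/
theorem eb_le_new {H : SimpleGraph V} {d : ℕ} (hd : ∀ v, (H.neighborSet v).ncard ≤ d)
    {A C : Finset V} (hA : A ⊆ C) :
    eb H A (C \ A) + d * A.card ≤ d * (stp C H A).card := by
  classical
  set N : Finset V := (C \ A).filter fun v => ∃ u ∈ A, H.Adj u v with hN
  have h1 : stp C H A = A ∪ N := by
    ext v
    rw [mem_stp, mem_union, hN, mem_filter, mem_sdiff]
    constructor
    · rintro (h | ⟨h, h'⟩)
      · exact Or.inl h
      · by_cases hv : v ∈ A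
        · exact Or.inl hv
        · exact Or.inr ⟨⟨h, hv⟩, h'⟩
    · rintro (h | ⟨⟨h, -⟩, h'⟩)
      · exact Or.inl h
      · exact Or.inr ⟨h, h'⟩
  have h2 : Disjoint A N := by
    rw [Finset.disjoint_left]
    intro v hv hv'
    exact (mem_sdiff.1 (mem_filter.1 hv').1).2 hv
  have h3 : eb H A (C \ A) = eb H N A := by
    have h4 : C \ A = N ∪ ((C \ A) \ N) := by
      rw [Finset.union_sdiff_of_subset (filter_subset _ _)]
    have h5 : eb H A ((C \ A) \ N) = 0 := by
      unfold eb
      rw [Finset.card_eq_zero, Finset.filter_eq_empty_iff]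
      rintro ⟨a, b⟩ h h'
      rw [mem_product] at h
      obtain ⟨ha, hb⟩ := h
      rw [mem_sdiff] at hb
      exact hb.2 (mem_filter.2 ⟨hb.1, a, ha, h'⟩)
    rw [h4, eb_union_right H A disjoint_sdiff, h5, add_zero, eb_symm]
  rw [h1, card_union_of_disjoint h2, h3, mul_add, add_comm]
  exact Nat.add_le_add_left (eb_le hd N A) _

/-- **decay of the inverse of the size** -/
theorem inv_card_stp_le {H : SimpleGraph V} {d : ℕ} (hd0 : 0 < d)
    (hd : ∀ v, (H.neighborSet v).ncard ≤ d) {A C : Finset V} (hA : A ⊆ C) (hA0 : A.Nonempty) :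
    (1 : ℝ) / (stp C H A).card ≤
      1 / A.card - (eb H A (C \ A) : ℝ) / (2 * d * A.card ^ 2) := by
  have ha : (0 : ℝ) < A.card := by exact_mod_cast hA0.card_pos
  have hd' : (0 : ℝ) < d := by exact_mod_cast hd0
  have h1 : (eb H A (C \ A) : ℝ) + d * A.card ≤ d * (stp C H A).card := by
    exact_mod_cast eb_le_new hd hA
  have h2 : (eb H A (C \ A) : ℝ) ≤ d * A.card := by exact_mod_cast eb_le hd A (C \ A)
  set e : ℝ := (eb H A (C \ A) : ℝ) with he
  have he0 : 0 ≤ e := by positivity
  set a : ℝ := (A.card : ℝ) with ha'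
  set s : ℝ := ((stp C H A).card : ℝ) with hs'
  have hs : 0 < s := by nlinarith
  -- `s ≥ a + e / d`
  have h3 : (1 : ℝ) / s ≤ d / (e + d * a) := by
    rw [div_le_div_iff₀ hs (by positivity)]
    linarith
  refine h3.trans ?_
  have h4 : 1 / a - e / (2 * d * a ^ 2) = (2 * d * a - e) / (2 * d * a ^ 2) := by
    field_simp
  rw [h4, div_le_div_iff₀ (by positivity) (by positivity)]
  nlinarith [mul_le_mul_of_nonneg_left h2 he0]

end RST062

end
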