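import Pool.Agent.RST062.Step

/-!
# Weights of cuts, expansion, growth of the evolving set

`p` is the law of one snapshot (connected graphs of maximum degree at most `d`).
`w p A B` is the expected number of adjacent pairs, `Ex p θ C` the edge expansion of the cluster `C`.
`q C p T A` is the probability that the evolving set from `A` has size at most `|C| / 2` after `T`
steps; `q_le` is its exponential decay.
-/

set_option autoImplicit false
set_option linter.unusedSectionVars false
set_option linter.unusedVariables false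

open Finset

noncomputable section

namespace RST062

variable {V : Type*} [Fintype V] [DecidableEq V]

/-- law of a connected graph of maximum degree at most `d` -/
structure Law (p : SimpleGraph V → ℝ) (d : ℕ) : Prop where
  nonneg : ∀ H, 0 ≤ p H
  sum : ∑ H, p H = 1
  conn : ∀ H, p H ≠ 0 → H.Connected
  deg : ∀ H, p H ≠ 0 → ∀ v, (H.neighborSet v).ncard ≤ d

/-- expected number of adjacent pairs -/
def w (p : SimpleGraph V → ℝ) (A B : Finset V) : ℝ := ∑ H, p H * eb H A B

variable {p : SimpleGraph V → ℝ} {d : ℕ}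

theorem w_symm (p : SimpleGraph V → ℝ) (A B : Finset V) : w p A B = w p B A := by
  unfold w
  simp_rw [eb_symm _ A B]

theorem w_nonneg (hp : Law p d) (A B : Finset V) : 0 ≤ w p A B :=
  Finset.sum_nonneg fun H _ => mul_nonneg (hp.nonneg H) (Nat.cast_nonneg _)

theorem w_union_left (p : SimpleGraph V → ℝ) {A A' : Finset V} (B : Finset V)
    (h : Disjoint A A') : w p (A ∪ A') B = w p A B + w p A' B := by
  unfold w
  rw [← Finset.sum_add_distrib]
  refine Finset.sum_congr rfl fun H _ => ?_
  rw [eb_union_left H B h]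
  push_cast
  ring

theorem w_union_right (p : SimpleGraph V → ℝ) (A : Finset V) {B B' : Finset V}
    (h : Disjoint B B') : w p A (B ∪ B') = w p A B + w p A B' := by
  rw [w_symm, w_union_left p A h, w_symm p B, w_symm p B']

/-- cut of a cluster -/
theorem w_split (p : SimpleGraph V → ℝ) {A C : Finset V} (h : A ⊆ C) :
    w p A Aᶜ + w p (C \ A) (C \ A)ᶜ = w p C Cᶜ + 2 * w p A (C \ A) := by
  have h1 : Aᶜ = (C \ A) ∪ Cᶜ := by
    ext v
    simp only [mem_compl, mem_union, mem_sdiff]
    constructor
    · intro hv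
      by_cases hc : v ∈ C
      · exact Or.inl ⟨hc, hv⟩
      · exact Or.inr hc
    · rintro (⟨-, hv⟩ | hv)
      · exact hv
      · exact fun hv' => hv (h hv')
  have h2 : (C \ A)ᶜ = A ∪ Cᶜ := by
    ext v
    simp only [mem_compl, mem_union, mem_sdiff, not_and, not_not]
    constructor
    · intro hv
      by_cases hc : v ∈ C
      · exact Or.inl (hv hc)
      · exact Or.inr hc
    · rintro (hv | hv) hc
      · exact hv
      · exact absurd hc hv
  have h3 : Disjoint (C \ A) Cᶜ := by
    rw [Finset.disjoint_left]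
    intro v hv hv'
    exact (mem_compl.1 hv') (mem_sdiff.1 hv).1
  have h4 : Disjoint A Cᶜ := by
    rw [Finset.disjoint_left]
    intro v hv hv'
    exact (mem_compl.1 hv') (h hv)
  have h5 : C = A ∪ (C \ A) := by rw [Finset.union_sdiff_of_subset h]
  have h6 : w p C Cᶜ = w p A Cᶜ + w p (C \ A) Cᶜ := by
    conv_lhs => rw [h5]
    rw [w_union_left p _ disjoint_sdiff, ← h5]
  rw [h1, w_union_right p A h3, h2, w_union_right p (C \ A) h4, h6, w_symm p (C \ A) A]
  ring

theorem one_le_eb {H : SimpleGraph V} (hH : H.Connected) {C : Finset V} (h0 : C.Nonempty)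
    (h1 : C ≠ univ) : 1 ≤ eb H C Cᶜ := by
  classical
  obtain ⟨x, hx⟩ := h0
  obtain ⟨y, hy⟩ : ∃ y, y ∉ C := by
    by_contra hcon
    push Not at hcon
    exact h1 (Finset.eq_univ_iff_forall.2 hcon)
  obtain ⟨W⟩ := hH.preconnected x y
  obtain ⟨u, v, hu, hv, huv⟩ : ∃ u v, u ∈ C ∧ v ∉ C ∧ H.Adj u v := by
    clear h1
    induction W with
    | nil => exact absurd hx hy
    | @cons a b c hab W ih =>
      by_cases hb : b ∈ C
      · exact ih hb hy
      · exact ⟨a, b, hx, hb, hab⟩
  unfold eb
  rw [Nat.one_le_iff_ne_zero, Finset.card_ne_zero]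
  exact ⟨(u, v), mem_filter.2 ⟨mem_product.2 ⟨hu, mem_compl.2 hv⟩, huv⟩⟩

/-- a cluster has an expected boundary at least `1` -/
theorem one_le_b (hp : Law p d) {C : Finset V} (h0 : C.Nonempty) (h1 : C ≠ univ) :
    1 ≤ w p C Cᶜ := by
  unfold w
  rw [← hp.sum]
  refine Finset.sum_le_sum fun H _ => ?_
  by_cases hH : p H = 0
  · rw [hH, zero_mul]
  · have h2 : (1 : ℝ) ≤ eb H C Cᶜ := by exact_mod_cast one_le_eb (hp.conn H hH) h0 h1
    nlinarith [hp.nonneg H]

theorem w_le (hp : Law p d) (A B : Finset V) : w p A B ≤ d * A.card := by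
  unfold w
  calc ∑ H, p H * (eb H A B : ℝ) ≤ ∑ H, p H * (d * A.card : ℝ) := by
        refine Finset.sum_le_sum fun H _ => ?_
        by_cases hH : p H = 0
        · rw [hH, zero_mul, zero_mul]
        · refine mul_le_mul_of_nonneg_left ?_ (hp.nonneg H)
          exact_mod_cast eb_le (hp.deg H hH) A B
    _ = d * A.card := by rw [← Finset.sum_mul, hp.sum, one_mul]

/-- edge expansion of a cluster -/
def Ex (p : SimpleGraph V → ℝ) (θ : ℝ) (C : Finset V) : Prop :=
  ∀ A ⊆ C, A.Nonempty → 2 * A.card ≤ C.card → θ * A.card ≤ w p A (C \ A)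

/-- one step of the growth -/
theorem step_le (hp : Law p d) (hd : 0 < d) {θ : ℝ} {C : Finset V} (hC : Ex p θ C)
    {A : Finset V} (hA : A ⊆ C) (hA0 : A.Nonempty) (hA2 : 2 * A.card ≤ C.card) :
    ∑ H, p H * (1 / ((stp C H A).card : ℝ)) ≤ (1 - θ / (2 * d)) / A.card := by
  have ha : (0 : ℝ) < A.card := by exact_mod_cast hA0.card_pos
  have hd' : (0 : ℝ) < d := by exact_mod_cast hd
  calc ∑ H, p H * (1 / ((stp C H A).card : ℝ))
      ≤ ∑ H, p H * (1 / (A.card : ℝ) - (eb H A (C \ A) : ℝ) / (2 * d * A.card ^ 2)) := by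
        refine Finset.sum_le_sum fun H _ => ?_
        by_cases hH : p H = 0
        · rw [hH, zero_mul, zero_mul]
        · exact mul_le_mul_of_nonneg_left (inv_card_stp_le hd (hp.deg H hH) hA hA0) (hp.nonneg H)
    _ = 1 / (A.card : ℝ) - w p A (C \ A) / (2 * d * A.card ^ 2) := by
        simp_rw [mul_sub]
        rw [Finset.sum_sub_distrib, ← Finset.sum_mul, hp.sum, one_mul]
        unfold w
        rw [Finset.sum_div]
        simp_rw [mul_div_assoc]
    _ ≤ 1 / (A.card : ℝ) - θ * A.card / (2 * d * A.card ^ 2) := by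
        have := hC A hA hA0 hA2
        gcongr
    _ = (1 - θ / (2 * d)) / A.card := by
        field_simp

/-- probability that the evolving set is small after `T` steps -/
def q (C : Finset V) (p : SimpleGraph V → ℝ) : ℕ → Finset V → ℝ
  | 0, A => if 2 * A.card ≤ C.card then 1 else 0
  | T + 1, A => ∑ H, p H * q C p T (stp C H A)

theorem q_eq_zero (C : Finset V) (p : SimpleGraph V → ℝ) (T : ℕ) {A : Finset V}
    (hA : C.card < 2 * A.card) : q C p T A = 0 := by
  induction T generalizing A with
  | zero => simp [q, not_le.2 hA]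
  | succ T ih =>
    simp only [q]
    refine Finset.sum_eq_zero fun H _ => ?_
    rw [ih (hA.trans_le (Nat.mul_le_mul_left 2 (card_le_card (subset_stp C H A)))), mul_zero]

/-- **exponential growth in a cluster** -/
theorem q_le (hp : Law p d) (hd : 0 < d) {θ : ℝ} {C : Finset V} (hC : Ex p θ C)
    (hθ : θ ≤ 2 * d) (T : ℕ) {A : Finset V} (hA : A ⊆ C) (hA0 : A.Nonempty) :
    q C p T A ≤ (C.card / 2) * (1 - θ / (2 * d)) ^ T / A.card := by
  have hd' : (0 : ℝ) < d := by exact_mod_cast hd
  have hρ : 0 ≤ 1 - θ / (2 * d) := by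
    rw [sub_nonneg, div_le_one (by positivity)]
    exact hθ
  induction T generalizing A with
  | zero =>
    have ha : (0 : ℝ) < A.card := by exact_mod_cast hA0.card_pos
    simp only [q, pow_zero, mul_one]
    split_ifs with h
    · rw [le_div_iff₀ ha]
      have : (2 * A.card : ℝ) ≤ C.card := by exact_mod_cast h
      linarith
    · positivity
  | succ T ih =>
    have ha : (0 : ℝ) < A.card := by exact_mod_cast hA0.card_pos
    by_cases h : 2 * A.card ≤ C.card
    · simp only [q]
      calc ∑ H, p H * q C p T (stp C H A)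
          ≤ ∑ H, ((C.card / 2) * (1 - θ / (2 * d)) ^ T) *
              (p H * (1 / ((stp C H A).card : ℝ))) := by
            refine Finset.sum_le_sum fun H _ => ?_
            have h1 := ih (stp_subset H hA) (hA0.mono (subset_stp C H A))
            calc p H * q C p T (stp C H A) ≤ p H *
                  ((C.card / 2) * (1 - θ / (2 * d)) ^ T / ((stp C H A).card : ℝ)) :=
                  mul_le_mul_of_nonneg_left h1 (hp.nonneg H)
              _ = _ := by ring
        _ = ((C.card / 2) * (1 - θ / (2 * d)) ^ T) *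
              ∑ H, (p H * (1 / ((stp C H A).card : ℝ))) := by rw [Finset.mul_sum]
        _ ≤ ((C.card / 2) * (1 - θ / (2 * d)) ^ T) * ((1 - θ / (2 * d)) / A.card) :=
            mul_le_mul_of_nonneg_left (step_le hp hd hC hA hA0 h) (by positivity)
        _ = _ := by rw [pow_succ]; ring
    · rw [q_eq_zero C p (T + 1) (not_le.1 h)]
      positivity

end RST062

end
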